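import Pool.Agent.H52.HMS.LBase

/-!
# HMS box 1 (LLL): LIN0, the initial state
-/

set_option autoImplicit false

namespace Pool.HMS

open TMLib Finset

theorem lin0_thm (hU : S_LUNI) (hG : S_LGRM) : S_LIN0 := by
  intro D m B X hV
  have hbas : ∀ i < D, ∀ k, bas D B (lId D).1 i k = ent B i k := by
    intro i hi k
    unfold bas lId
    simp only [ent_tabM]
    rw [Finset.sum_eq_single i]
    · rw [if_pos ⟨hi, hi⟩, if_pos rfl, one_mul]
    · intro c hc hci
      rw [if_pos ⟨hi, Finset.mem_range.1 hc⟩, if_neg (Ne.symm hci), zero_mul]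
    · intro h
      exact absurd (Finset.mem_range.2 hi) h
  have hgr : ∀ i < D, ∀ j < D,
      gr D m B (lId D).1 i j = ∑ k ∈ range m, ent B i k * ent B j k := by
    intro i hi j hj
    unfold gr
    exact Finset.sum_congr rfl fun k _ => by rw [hbas i hi, hbas j hj]
  have huni := hU.1 D
  obtain ⟨hm, -, -, -, hL⟩ := hG D m B X _ _ hV huni
  have hm1 : (1 : ℚ) ≤ m := by exact_mod_cast hm
  have hD1 : (1 : ℚ) ≤ D := by exact_mod_cast hV.one
  have hX := hV.ge
  have hM : 1 ≤ (m : ℚ) * X ^ 2 := by nlinarith [one_le_pow₀ (n := 2) hX]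
  have hdiag : ∀ i < D, gr D m B (lId D).1 i i ≤ m * X ^ 2 := by
    intro i hi
    rw [hgr i hi i hi]
    have h1 : ∑ k ∈ range m, ent B i k * ent B i k ≤ ∑ _k ∈ range m, X ^ 2 := by
      refine Finset.sum_le_sum fun k _ => ?_
      have h2 := hV.bd i k
      rw [← sq, ← sq_abs]
      exact pow_le_pow_left₀ (abs_nonneg _) h2 2
    rwa [Finset.sum_const, Finset.card_range, nsmul_eq_mul] at h1
  have hrr : ∀ l < D, rr (gr D m B (lId D).1) l ≤ gr D m B (lId D).1 l l := by
    intro l hl
    have h1 := hL.eq l hl l hl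
    have h2 : mu (gr D m B (lId D).1) l l * rr (gr D m B (lId D).1) l *
        mu (gr D m B (lId D).1) l l ≤ ∑ l' ∈ range D, mu (gr D m B (lId D).1) l l' *
        rr (gr D m B (lId D).1) l' * mu (gr D m B (lId D).1) l l' := by
      refine Finset.single_le_sum (f := fun l' => mu (gr D m B (lId D).1) l l' *
        rr (gr D m B (lId D).1) l' * mu (gr D m B (lId D).1) l l') (fun l' hl' => ?_)
        (Finset.mem_range.2 hl)
      have h3 := (hL.pos l' (Finset.mem_range.1 hl')).le
      have h4 : mu (gr D m B (lId D).1) l l' * rr (gr D m B (lId D).1) l' *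
        mu (gr D m B (lId D).1) l l' = rr (gr D m B (lId D).1) l' *
        (mu (gr D m B (lId D).1) l l') ^ 2 := by ring
      rw [h4]
      exact mul_nonneg h3 (sq_nonneg _)
    rw [← h1, hL.one l hl, one_mul, mul_one] at h2
    exact h2
  have hrb : ∀ l < D, rr (gr D m B (lId D).1) l ≤ m * X ^ 2 := fun l hl =>
    (hrr l hl).trans (hdiag l hl)
  refine ⟨hgr, ⟨huni, hrb, fun i hi => (hdiag i hi).trans ?_⟩, ?_⟩
  · nlinarith
  · unfold pot
    have h1 : ∀ k ∈ range D, ∏ l ∈ range (k + 1), rr (gr D m B (lId D).1) l ≤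
        ((m : ℚ) * X ^ 2) ^ D := by
      intro k hk
      have hk' := Finset.mem_range.1 hk
      have h2 : ∏ l ∈ range (k + 1), rr (gr D m B (lId D).1) l ≤
          ∏ _l ∈ range (k + 1), ((m : ℚ) * X ^ 2) := by
        refine Finset.prod_le_prod (fun l hl => ?_) (fun l hl => ?_)
        · exact (hL.pos l (by have := Finset.mem_range.1 hl; omega)).le
        · exact hrb l (by have := Finset.mem_range.1 hl; omega)
      rw [Finset.prod_const, Finset.card_range] at h2
      exact h2.trans (pow_le_pow_right₀ hM (by omega))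
    have h3 : ∏ k ∈ range D, ∏ l ∈ range (k + 1), rr (gr D m B (lId D).1) l ≤
        ∏ _k ∈ range D, ((m : ℚ) * X ^ 2) ^ D := by
      refine Finset.prod_le_prod (fun k hk => ?_) h1
      refine Finset.prod_nonneg fun l hl => ?_
      exact (hL.pos l (by
        have h4 := Finset.mem_range.1 hl
        have h5 := Finset.mem_range.1 hk
        omega)).le
    rw [Finset.prod_const, Finset.card_range, ← pow_mul, ← sq] at h3
    exact h3

end Pool.HMS
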