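import Pool.Agent.H52.HMS.LBase

/-!
# HMS box 1 (LLL): LSEA, entries of the Schur complements of a Gram matrix
-/

set_option autoImplicit false

namespace Pool.HMS

open TMLib Finset

theorem lsea_thm (hC : S_LCON) (hG : S_LGRM) (hS : S_LSCA) : S_LSEA := by
  intro D m B X U W hV hUW
  obtain ⟨-, -, hI, -, hL⟩ := hG D m B X U W hV hUW
  have he : ∀ i j, ent (grA D m B U) i j = if i < D ∧ j < D then gr D m B U i j else 0 :=
    fun i j => ent_tabM D D _ i j
  have he' : ∀ i < D, ∀ j < D, gr D m B U i j = ent (grA D m B U) i j := by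
    intro i hi j hj
    rw [he, if_pos ⟨hi, hj⟩]
  obtain ⟨h1, h2, h3⟩ := hC D _ _ he'
  have hL' : LDL D (ent (grA D m B U)) (mu (ent (grA D m B U)))
      (rr (ent (grA D m B U))) := by
    refine ⟨fun i hi => ?_, fun i hi l hl hil => ?_, fun i hi => ?_, fun i hi j hj => ?_⟩
    · rw [← h3 i hi i hi]
      exact hL.one i hi
    · rw [← h3 i hi l hl]
      exact hL.tri i hi l hl hil
    · rw [← h2 i hi]
      exact hL.pos i hi
    · rw [← he' i hi j hj, hL.eq i hi j hj]
      refine Finset.sum_congr rfl fun l hl => ?_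
      have hl' := Finset.mem_range.1 hl
      rw [h3 i hi l hl', h2 l hl', h3 j hj l hl']
  have hI' : ∀ i j, IsI (ent (grA D m B U) i j) := by
    intro i j
    rw [he]
    split_ifs
    · exact hI i j
    · exact IsI.zero
  intro k hk i hi j hj
  unfold seA
  rw [hS D _ hL' hI' k hk i hi j hj, h1 k hk i hi j hj]

end Pool.HMS
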