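import Pool.Agent.H91.HMS.RLib

/-!
# HMS box 2 (ROUND): RNUM, properties of the numbers of a cut
-/

set_option autoImplicit false

namespace Pool.HMS

open TMLib Finset

private theorem rn_card {D a : ℕ} (ha : a ≤ D) : ((range (D + 1)).filter (· ≠ a)).card = D := by
  rw [Finset.filter_ne', Finset.card_erase_of_mem (Finset.mem_range.2 (by omega)),
    Finset.card_range]
  rfl

private theorem rn_first (hM : S_RMAX) (D : ℕ) (s : Vec) (V : Mat) (j : ℕ) :
    IsI (rNum D s V j) ∧ -(4 * (D : ℚ) ^ 2) ≤ rNum D s V j ∧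
    (j ≤ D → rNum D s V j ≤ 4 * D) := by
  obtain ⟨h1, h2⟩ := hM D s V
  have hD : (0 : ℚ) ≤ D := Nat.cast_nonneg D
  unfold rNum
  split_ifs with hm hj
  · refine ⟨⟨-(4 * (D : ℤ) ^ 2), by push_cast; ring⟩, le_rfl, fun _ => by nlinarith⟩
  · refine ⟨⟨4 * (D : ℤ), by push_cast; ring⟩, by nlinarith, fun _ => le_rfl⟩
  · have hm' : 0 < rVal D s V (rMax D s V) := not_le.1 hm
    refine ⟨⟨_, rfl⟩, ?_, ?_⟩
    · refine le_trans ?_ (Int.le_ceil _)
      have h3 : -(D : ℚ) ≤ max (rVal D s V j / rVal D s V (rMax D s V)) (-D) := le_max_right _ _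
      nlinarith [mul_le_mul_of_nonneg_left h3 hD]
    · intro hjD
      have h3 : max (rVal D s V j / rVal D s V (rMax D s V)) (-(D : ℚ)) ≤ 1 :=
        max_le ((div_le_one hm').2 (h2 j hjD)) (by linarith)
      have h4 : 4 * (D : ℚ) * max (rVal D s V j / rVal D s V (rMax D s V)) (-D) ≤
          ((4 * (D : ℤ) : ℤ) : ℚ) := by
        push_cast
        nlinarith [mul_le_mul_of_nonneg_left h3 hD]
      have h5 := Int.ceil_le.2 h4
      have h6 : ((⌈4 * (D : ℚ) * max (rVal D s V j / rVal D s V (rMax D s V)) (-D)⌉ : ℤ) : ℚ) ≤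
          ((4 * (D : ℤ) : ℤ) : ℚ) := by exact_mod_cast h5
      refine h6.trans (le_of_eq ?_)
      push_cast
      ring

private theorem rn_aff {D : ℕ} (s : Vec) (V : Mat) {b : ℕ} (hb : b ≤ D) :
    aff D (fn s) (fn (rShr D V b)) =
      (1 - 1 / RD D) / (D + 1) * ∑ j ∈ range (D + 1), rVal D s V j + 1 / RD D * rVal D s V b := by
  have hR := RD_pos D
  have hD : (D : ℚ) + 1 ≠ 0 := by positivity
  have hbm : b ∈ range (D + 1) := Finset.mem_range.2 (by omega)
  have hw : ∑ k ∈ range (D + 1), ((1 - 1 / RD D) / ((D : ℚ) + 1) +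
      if k = b then 1 / RD D else 0) = 1 := by
    rw [Finset.sum_add_distrib, Finset.sum_const, Finset.card_range, Finset.sum_ite_eq',
      if_pos hbm, nsmul_eq_mul]
    push_cast
    field_simp
    ring
  have hs : ∀ f : ℕ → ℚ, ∑ k ∈ range (D + 1), ((1 - 1 / RD D) / ((D : ℚ) + 1) +
      if k = b then 1 / RD D else 0) * f k =
      (1 - 1 / RD D) / (D + 1) * ∑ k ∈ range (D + 1), f k + 1 / RD D * f b := by
    intro f
    simp_rw [add_mul, Finset.sum_add_distrib, ← Finset.mul_sum, ite_mul, zero_mul]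
    rw [Finset.sum_ite_eq', if_pos hbm]
  have h1 : aff D (fn s) (fn (rShr D V b)) = aff D (fn s) (fun i => ∑ k ∈ range (D + 1),
      ((1 - 1 / RD D) / ((D : ℚ) + 1) + if k = b then 1 / RD D else 0) * ent V k i) := by
    refine aff_congr rfl fun i hi => ?_
    unfold rShr
    rw [fn_tab, if_pos hi, hs]
  rw [h1, aff_comb D (fn s) (range (D + 1)) _ (fun k => ent V k) hw, hs]
  rfl

private theorem rn_one {D : ℕ} (hD : 1 ≤ D) {a j : ℕ} (ha : a ≤ D) (hj : j ≤ D) (hja : j ≠ a)
    (n : ℕ → ℚ) (h1 : n j ≤ -(4 * (D : ℚ) ^ 2)) (h2 : ∀ i ≤ D, n i ≤ 4 * D) :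
    ∑ j ∈ (range (D + 1)).filter (· ≠ a), n j ≤ -(2 * D) := by
  have hjm : j ∈ (range (D + 1)).filter (· ≠ a) :=
    Finset.mem_filter.2 ⟨Finset.mem_range.2 (by omega), hja⟩
  rw [← Finset.add_sum_erase _ _ hjm]
  have h3 : ∑ x ∈ ((range (D + 1)).filter (· ≠ a)).erase j, n x ≤
      ∑ x ∈ ((range (D + 1)).filter (· ≠ a)).erase j, (4 * D : ℚ) := by
    refine Finset.sum_le_sum fun i hi => h2 i ?_
    have := Finset.mem_range.1 (Finset.mem_filter.1 (Finset.mem_of_mem_erase hi)).1
    omega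
  rw [Finset.sum_const, Finset.card_erase_of_mem hjm, rn_card ha, nsmul_eq_mul] at h3
  have h4 : ((D - 1 : ℕ) : ℚ) = D - 1 := by
    rw [Nat.cast_sub hD]; simp
  rw [h4] at h3
  have h5 : (1 : ℚ) ≤ D := by exact_mod_cast hD
  nlinarith

theorem rnum_thm (hM : S_RMAX) : S_RNUM := by
  refine ⟨rn_first hM, ?_⟩
  intro D s V b hD hb hneg
  obtain ⟨h1, h2⟩ := hM D s V
  have hD1 : (1 : ℚ) ≤ D := by exact_mod_cast hD
  have hR := RD_pos D
  rw [rn_aff s V hb] at hneg
  have hneg2 : 8 * (D : ℚ) ^ 3 * ∑ j ∈ range (D + 1), rVal D s V j + (D + 1) * rVal D s V b < 0 := by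
    have h3 : 0 < RD D * (D + 1) := by positivity
    have h4 := mul_neg_of_pos_of_neg h3 hneg
    have h5 : RD D * ((D : ℚ) + 1) * ((1 - 1 / RD D) / (D + 1) * ∑ j ∈ range (D + 1), rVal D s V j +
        1 / RD D * rVal D s V b) =
        (RD D - 1) * ∑ j ∈ range (D + 1), rVal D s V j + (D + 1) * rVal D s V b := by
      have h6 : (D : ℚ) + 1 ≠ 0 := by positivity
      have h7 : RD D ≠ 0 := hR.ne'
      field_simp
    rw [h5] at h4
    have h8 : RD D - 1 = 8 * (D : ℚ) ^ 3 := by unfold RD; ring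
    rwa [h8] at h4
  set a := rMax D s V with ha
  by_cases hm : rVal D s V a ≤ 0
  · -- all values are nonpositive
    have h3 : ∃ j ≤ D, j ≠ a ∧ rVal D s V j < 0 := by
      by_contra hcon
      push Not at hcon
      have h4 : ∀ j ≤ D, rVal D s V j = 0 := by
        obtain ⟨j0, hj0, hj0a⟩ : ∃ j ≤ D, j ≠ a := by
          by_cases h : a = 0
          · exact ⟨1, hD, by omega⟩
          · exact ⟨0, by omega, by omega⟩
        have h5 : 0 ≤ rVal D s V a := (hcon j0 hj0 hj0a).trans (h2 j0 hj0)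
        intro j hj
        by_cases hja : j = a
        · rw [hja]; exact le_antisymm hm h5
        · exact le_antisymm ((h2 j hj).trans hm) (hcon j hj hja)
      rw [Finset.sum_eq_zero fun j hj => h4 j (by have := Finset.mem_range.1 hj; omega),
        h4 b hb] at hneg2
      simp at hneg2
    obtain ⟨j, hj, hja, hj0⟩ := h3
    refine rn_one hD h1 hj hja _ ?_ fun i hi => (rn_first hM D s V i).2.2 hi
    unfold rNum
    rw [if_pos hm, if_pos hj0]
  · have hm' : 0 < rVal D s V a := not_le.1 hm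
    by_cases hex : ∃ j ≤ D, j ≠ a ∧ rVal D s V j / rVal D s V a ≤ -D
    · obtain ⟨j, hj, hja, hj0⟩ := hex
      refine rn_one hD h1 hj hja _ ?_ fun i hi => (rn_first hM D s V i).2.2 hi
      unfold rNum
      rw [if_neg hm, max_eq_right hj0]
      have h3 : 4 * (D : ℚ) * -D = ((-(4 * (D : ℤ) ^ 2) : ℤ) : ℚ) := by push_cast; ring
      rw [h3, Int.ceil_intCast]
      push_cast
      exact le_rfl
    · push Not at hex
      have h3 : -(D : ℚ) < rVal D s V b / rVal D s V a := by
        by_cases hba : b = a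
        · rw [hba, div_self hm'.ne']; linarith
        · exact hex b hb hba
      have ham : a ∈ range (D + 1) := Finset.mem_range.2 (by omega)
      have h4 : ∑ j ∈ range (D + 1), rVal D s V j / rVal D s V a =
          1 + ∑ j ∈ (range (D + 1)).filter (· ≠ a), rVal D s V j / rVal D s V a := by
        rw [Finset.filter_ne', ← Finset.add_sum_erase _ _ ham, div_self hm'.ne']
      have h5 : 8 * (D : ℚ) ^ 3 * ∑ j ∈ range (D + 1), rVal D s V j / rVal D s V a +
          (D + 1) * (rVal D s V b / rVal D s V a) < 0 := by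
        rw [← Finset.sum_div]
        have h6 := div_neg_of_neg_of_pos hneg2 hm'
        have h7 : (8 * (D : ℚ) ^ 3 * ∑ j ∈ range (D + 1), rVal D s V j + (D + 1) * rVal D s V b) /
            rVal D s V a = 8 * (D : ℚ) ^ 3 * ((∑ j ∈ range (D + 1), rVal D s V j) / rVal D s V a) +
            (D + 1) * (rVal D s V b / rVal D s V a) := by ring
        rwa [h7] at h6
      rw [h4] at h5
      set T := ∑ j ∈ (range (D + 1)).filter (· ≠ a), rVal D s V j / rVal D s V a with hT
      have h6 : T ≤ -(3 / 4) := by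
        by_contra hcon
        have hcon' : -(3 / 4) < T := not_le.1 hcon
        have h7 : 8 * (D : ℚ) ^ 3 * (1 + T) ≥ 2 * (D : ℚ) ^ 3 := by
          have : (0 : ℚ) ≤ (D : ℚ) ^ 3 := by positivity
          nlinarith
        have h8 : ((D : ℚ) + 1) * (rVal D s V b / rVal D s V a) ≥ (D + 1) * (-D) :=
          mul_le_mul_of_nonneg_left h3.le (by positivity)
        have h9 : 2 * (D : ℚ) ^ 3 ≥ (D + 1) * D := by nlinarith [mul_nonneg (by linarith : (0 : ℚ) ≤ D) (by linarith : (0 : ℚ) ≤ (D : ℚ) - 1)]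
        nlinarith
      have h7 : ∑ j ∈ (range (D + 1)).filter (· ≠ a), rNum D s V j ≤
          ∑ j ∈ (range (D + 1)).filter (· ≠ a), (4 * D * (rVal D s V j / rVal D s V a) + 1) := by
        refine Finset.sum_le_sum fun j hj => ?_
        obtain ⟨hj1, hj2⟩ := Finset.mem_filter.1 hj
        have hj3 : j ≤ D := by have := Finset.mem_range.1 hj1; omega
        have h8 : rNum D s V j = ((⌈4 * (D : ℚ) * (rVal D s V j / rVal D s V a)⌉ : ℤ) : ℚ) := by
          unfold rNum
          rw [if_neg hm, max_eq_left (hex j hj3 hj2).le]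
        rw [h8]
        exact (Int.ceil_lt_add_one _).le
      refine h7.trans ?_
      rw [Finset.sum_add_distrib, ← Finset.mul_sum, Finset.sum_const, rn_card h1, nsmul_eq_mul]
      rw [← hT]
      nlinarith

end Pool.HMS
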