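import Pool.Agent.H91.HMS.RLib

/-!
# HMS box 2 (ROUND): RVALID, the new facet is valid
-/

set_option autoImplicit false

namespace Pool.HMS

open TMLib Finset

private theorem rv_rep {D : ℕ} {K : Set (ℕ → ℚ)} {st : RS} (hI : RInv D K st) (s : Vec)
    {x : ℕ → ℚ} (hx : Supp D x) :
    ∑ j ∈ range (D + 1), aff D (ent st.2.1 j) x * rVal D s st.1 j = st.2.2 * aff D (fn s) x := by
  unfold rVal aff
  simp_rw [mul_add, Finset.mul_sum]
  rw [Finset.sum_add_distrib, ← Finset.sum_mul, Finset.sum_comm]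
  have h1 := hI.one x
  unfold aff at h1
  rw [h1]
  congr 1
  refine Finset.sum_congr rfl fun c hc => ?_
  have h2 := hI.rep x hx c (Finset.mem_range.1 hc)
  unfold aff at h2
  have h3 : ∀ j, ((ent st.2.1 j 0 + ∑ i ∈ range D, ent st.2.1 j (i + 1) * x i) *
      (fn s (c + 1) * ent st.1 j c)) = fn s (c + 1) *
      ((ent st.2.1 j 0 + ∑ i ∈ range D, ent st.2.1 j (i + 1) * x i) * ent st.1 j c) := by
    intro j; ring
  simp_rw [h3]
  rw [← Finset.mul_sum, h2]
  ring

theorem rvalid_thm (hM : S_RMAX) (_hN : S_RNUM) : S_RVALID := by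
  intro D K s st hD hI hsupp hs x hx
  obtain ⟨h1, h2⟩ := hM D s st.1
  have hD1 : (1 : ℚ) ≤ D := by exact_mod_cast hD
  have hg : ∀ j ≤ D, 0 ≤ aff D (ent st.2.1 j) x := hI.sub x hx
  have hsum : 0 ≤ ∑ j ∈ range (D + 1), aff D (ent st.2.1 j) x * rVal D s st.1 j := by
    rw [rv_rep hI s (hsupp x hx)]
    exact mul_nonneg hI.pos.le (hs x hx)
  set a := rMax D s st.1 with ha
  have ham : a ∈ range (D + 1) := Finset.mem_range.2 (by omega)
  have hga := hg a h1
  have hD3 : 4 * (D : ℚ) ≤ 16 * (D : ℚ) ^ 3 := by nlinarith [sq_nonneg ((D : ℚ) - 1), mul_nonneg (by linarith : (0 : ℚ) ≤ D) (by nlinarith : (0 : ℚ) ≤ (D : ℚ) ^ 2 - 1)]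
  by_cases hm : rVal D s st.1 a ≤ 0
  · have h3 : ∀ j ∈ range (D + 1), aff D (ent st.2.1 j) x * rVal D s st.1 j ≤ 0 := by
      intro j hj
      have hj' : j ≤ D := by have := Finset.mem_range.1 hj; omega
      exact mul_nonpos_of_nonneg_of_nonpos (hg j hj') ((h2 j hj').trans hm)
    have h4 : ∀ j ∈ range (D + 1), aff D (ent st.2.1 j) x * rVal D s st.1 j = 0 :=
      (Finset.sum_eq_zero_iff_of_nonpos h3).1 (le_antisymm (Finset.sum_nonpos h3) hsum)
    refine add_nonneg (mul_nonneg (by positivity) hga) (Finset.sum_nonneg fun j hj => ?_)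
    obtain ⟨hj1, hj2⟩ := Finset.mem_filter.1 hj
    have hj3 : j ≤ D := by have := Finset.mem_range.1 hj1; omega
    unfold rNum
    rw [if_pos hm]
    split_ifs with hv
    · have h5 : aff D (ent st.2.1 j) x = 0 := by
        rcases mul_eq_zero.1 (h4 j hj1) with h | h
        · exact h
        · exact absurd h hv.ne
      rw [h5, mul_zero]
    · exact mul_nonneg (by positivity) (hg j hj3)
  · have hm' : 0 < rVal D s st.1 a := not_le.1 hm
    have h3 : ∑ j ∈ (range (D + 1)).filter (· ≠ a),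
        4 * D * (rVal D s st.1 j / rVal D s st.1 a) * aff D (ent st.2.1 j) x ≤
        ∑ j ∈ (range (D + 1)).filter (· ≠ a), rNum D s st.1 j * aff D (ent st.2.1 j) x := by
      refine Finset.sum_le_sum fun j hj => ?_
      obtain ⟨hj1, hj2⟩ := Finset.mem_filter.1 hj
      have hj3 : j ≤ D := by have := Finset.mem_range.1 hj1; omega
      refine mul_le_mul_of_nonneg_right ?_ (hg j hj3)
      unfold rNum
      rw [if_neg hm]
      refine le_trans ?_ (Int.le_ceil _)
      exact mul_le_mul_of_nonneg_left (le_max_left _ _) (by positivity)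
    have h4 : ∑ j ∈ (range (D + 1)).filter (· ≠ a),
        4 * D * (rVal D s st.1 j / rVal D s st.1 a) * aff D (ent st.2.1 j) x =
        4 * D / rVal D s st.1 a *
          ∑ j ∈ (range (D + 1)).filter (· ≠ a), aff D (ent st.2.1 j) x * rVal D s st.1 j := by
      rw [Finset.mul_sum]
      exact Finset.sum_congr rfl fun j _ => by ring
    have h5 : ∑ j ∈ range (D + 1), aff D (ent st.2.1 j) x * rVal D s st.1 j =
        aff D (ent st.2.1 a) x * rVal D s st.1 a +
          ∑ j ∈ (range (D + 1)).filter (· ≠ a), aff D (ent st.2.1 j) x * rVal D s st.1 j := by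
      rw [Finset.filter_ne', ← Finset.add_sum_erase _ _ ham]
    rw [h5] at hsum
    have h6 : -(4 * D * aff D (ent st.2.1 a) x) ≤ 4 * D / rVal D s st.1 a *
        ∑ j ∈ (range (D + 1)).filter (· ≠ a), aff D (ent st.2.1 j) x * rVal D s st.1 j := by
      have h7 : 0 ≤ 4 * D / rVal D s st.1 a := by positivity
      have h8 := mul_nonneg h7 hsum
      rw [mul_add] at h8
      have h9 : 4 * D / rVal D s st.1 a * (aff D (ent st.2.1 a) x * rVal D s st.1 a) =
          4 * D * aff D (ent st.2.1 a) x := by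
        field_simp
      rw [h9] at h8
      linarith
    rw [h4] at h3
    have h10 := mul_le_mul_of_nonneg_right hD3 hga
    linarith

end Pool.HMS
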